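import Pool.Agent.Helper63.D4.Sheet

/-!
MP_fcb106_co, version 4, row MB: the main step when `G₁` is as large as `G`.
-/

set_option autoImplicit false

open Finset

namespace Pool.Agent.Helper26.D4

open Pool.Agent.Helper33.DP Pool.Agent.Helper63.D4

theorem Cl_mono {w : ℕ} {e e' : Fin w → ℝ} (h0 : ∀ x, 0 ≤ e x) (h : ∀ x, e x ≤ e' x)
    (h' : Cl e') : Cl e :=
  ⟨h0, fun S => (Finset.sum_le_sum fun x _ => h x).trans (h'.2 S)⟩

theorem Cl_zero {w : ℕ} : Cl (fun _ : Fin w => (0 : ℝ)) := by
  refine ⟨fun _ => le_rfl, fun S => ?_⟩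
  have h1 : (S.card : ℝ) ≤ w := by
    have := Finset.card_le_univ S
    rw [Fintype.card_fin] at this
    exact_mod_cast this
  have h2 : (0 : ℝ) ≤ S.card := Nat.cast_nonneg _
  simp only [Finset.sum_const_zero]
  exact mul_nonneg (mul_nonneg (by norm_num) h2) (by linarith)

theorem Bdd_mono {w : ℕ} {G : Gr w} {m m' : Fin w → Fin w → ℝ} {β : ℝ} (h : Bdd G m β)
    (hm : ∀ a b, (a, b) ∈ G → m a b ≤ m' a b) : Bdd G m' β := by
  refine ⟨fun a b hab => (h.pos a b hab).trans_le (hm a b hab), fun σ hσ => ?_⟩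
  refine (Finset.sum_le_sum fun i _ => ?_).trans (h.le σ hσ)
  exact inv_anti₀ (h.pos _ _ (hσ i)) (hm _ _ (hσ i))

theorem MB (hLR4 : ST_LR4) (hCL1 : ST_CL1) (hCL2 : ST_CL2) (hCL3 : ST_CL3) (hCL4 : ST_CL4)
    (hBGP : ST_BGP) : ST_MB := by
  classical
  intro w G G₁ G₂ μ R C P T E β hG₁ hG₂ hcomp hst hblk hμ0 hR hC hB hP
  have hPG : ∀ x b, P x b ≠ 0 → (x, b) ∈ G₂ := by
    intro x b h
    by_contra hcon
    exact h (hP.supp x b hcon)
  -- the real routing
  set z : Fin w → Fin w → Fin w → ℝ := fun a x b => (μ a b : ℝ) * P x b with hz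
  have hz0 : ∀ a x b, 0 ≤ z a x b := fun a x b =>
    mul_nonneg (Nat.cast_nonneg _) (hP.nonneg x b)
  have hzs : ∀ a x b, ¬ ((a, x) ∈ G₁ ∧ (x, b) ∈ G₂) → z a x b = 0 := by
    intro a x b h
    by_contra hcon
    have h1 : (μ a b : ℝ) ≠ 0 := left_ne_zero_of_mul hcon
    have h2 : P x b ≠ 0 := right_ne_zero_of_mul hcon
    have h3 : (a, b) ∈ G := by
      by_contra h4
      exact h1 (by rw [hμ0 a b h4, Nat.cast_zero])
    exact h ⟨hst a x b h3 (hPG x b h2), hPG x b h2⟩
  have hg : ∀ a, Cl (fun x => ∑ b, P x b * R a b) := fun a =>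
    hCL1 w P (R a) hP.nonneg hP.row hP.col (hR a)
  have hround : ∀ a, ∃ y' : Fin w → Fin w → ℕ, (∀ b, ∑ x, y' b x = μ a b) ∧
      (∀ b x, |(y' b x : ℝ) - z a x b| < 1) ∧ (∀ b x, z a x b = 0 → y' b x = 0) ∧
      ∀ S : Finset (Fin w), ∑ x ∈ S, ((∑ b, P x b * R a b) + ∑ b, (z a x b - (y' b x : ℝ))) ≤
        2 * S.card * (2 * w - S.card : ℝ) := by
    intro a
    refine hLR4 w (fun x => ∑ b, P x b * R a b) (fun b x => z a x b) (fun b => μ a b) (hg a)
      (fun b x => hz0 a x b) fun b => ?_
    simp only [hz]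
    rw [← Finset.mul_sum, hP.col b, mul_one]
  choose y' hy1 hy2 hy3 hy4 using hround
  have hRt : Route G₁ G₂ μ (fun a x b => y' a b x) := by
    refine ⟨fun a x b h => ?_, fun a b _ => hy1 a b⟩
    by_contra hcon
    exact h (hy3 a b x (hzs a x b hcon))
  refine ⟨fun a x b => y' a b x, hRt, ⟨fun a x => max ((∑ b, P x b * R a b) +
    ∑ b, (z a x b - (y' a b x : ℝ))) 0, fun a x => ∑ b, P x b * C a b,
    fun a => hCL3 w _ (hy4 a), fun x => hCL2 w (fun b => P x b) (fun b a => C a b)
      (hP.nonneg x) (hP.row x) hC, ?_⟩, ?_⟩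
  · -- the state of `G₁`
    have hB' : Bdd G (fun a b => if (a, b) ∈ G then (μ a b : ℝ) + R a b + C a b else 0) β := by
      refine ⟨fun a b h => ?_, fun σ hσ => ?_⟩
      · simp only [h, if_true]
        exact hB.pos a b h
      · refine le_trans (le_of_eq ?_) (hB.le σ hσ)
        refine Finset.sum_congr rfl fun i _ => ?_
        simp only [hσ i, if_true]
    have h1 := hBGP w G G₁ G₂ _ P β (by rw [hcomp]) (fun a b h => by simp only [h, if_false])
      hP hB'
    refine Bdd_mono h1 fun a x _ => ?_
    have h2 : ∀ b, (if (a, b) ∈ G then (μ a b : ℝ) + R a b + C a b else 0) * P x b ≤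
        (y' a b x : ℝ) + (P x b * R a b + (z a x b - (y' a b x : ℝ))) + P x b * C a b := by
      intro b
      have h3 : (if (a, b) ∈ G then (μ a b : ℝ) + R a b + C a b else 0) ≤
          (μ a b : ℝ) + R a b + C a b := by
        split_ifs
        · exact le_rfl
        · have := (hR a).1 b
          have := (hC b).1 a
          have : (0 : ℝ) ≤ μ a b := Nat.cast_nonneg _
          simp only at *
          linarith
      calc (if (a, b) ∈ G then (μ a b : ℝ) + R a b + C a b else 0) * P x b
          ≤ ((μ a b : ℝ) + R a b + C a b) * P x b :=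
            mul_le_mul_of_nonneg_right h3 (hP.nonneg x b)
        _ = _ := by simp only [hz]; ring
    have h4 := Finset.sum_le_sum fun b (_ : b ∈ (Finset.univ : Finset (Fin w))) => h2 b
    rw [Finset.sum_add_distrib, Finset.sum_add_distrib, Finset.sum_add_distrib] at h4
    push_cast
    have h5 := le_max_left ((∑ b, P x b * R a b) + ∑ b, (z a x b - (y' a b x : ℝ))) 0
    linarith
  · -- the state of `G₂`
    have hTpos : ∀ b, (0 : ℝ) < (T b).card := fun b => by exact_mod_cast hblk.pos b
    have hEcard : ∀ b, ((E b).card : ℝ) = (T b).card := fun b => by rw [hblk.card b]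
    refine ⟨fun x b => if (x, b) ∈ G₂ then (∑ a ∈ E b, R a b) / (T b).card else 0,
      fun x b => if x ∈ T b then max ((∑ a ∈ E b, C a b) / (T b).card +
        ∑ a ∈ E b, (z a x b - (y' a b x : ℝ))) 0 else 0, fun x => ?_, fun b => ?_, ?_⟩
    · by_cases hex : ∃ b0, (x, b0) ∈ G₂
      · obtain ⟨b0, hb0⟩ := hex
        set c : Fin w → ℝ := fun a => if a ∈ E b0 then 1 / ((T b0).card : ℝ) else 0 with hc
        have hc0 : ∀ a, 0 ≤ c a := fun a => by
          simp only [hc]
          split_ifs
          · exact (one_div_pos.2 (hTpos b0)).le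
          · exact le_rfl
        have hc1 : ∑ a, c a = 1 := by
          simp only [hc]
          rw [← Finset.sum_filter, Finset.filter_mem_eq_inter, Finset.univ_inter,
            Finset.sum_const, nsmul_eq_mul, hEcard b0, mul_one_div,
            div_self (hTpos b0).ne']
        have h1 := hCL2 w c (fun a b => R a b) hc0 hc1 hR
        refine Cl_mono (fun b => ?_) (fun b => ?_) h1
        · beta_reduce
          split_ifs
          · exact div_nonneg (Finset.sum_nonneg fun a _ => (hR a).1 b) (hTpos b).le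
          · exact le_rfl
        · beta_reduce
          have h2 : ∑ a, c a * R a b = (∑ a ∈ E b0, R a b) / (T b0).card := by
            simp only [hc, ite_mul, zero_mul]
            rw [← Finset.sum_filter, Finset.filter_mem_eq_inter, Finset.univ_inter,
              ← Finset.mul_sum]
            ring
          rw [h2]
          split_ifs with hb
          · have h3 : E b = E b0 := hblk.eqE x b b0 hb hb0
            have h4 : (T b).card = (T b0).card := by rw [← hblk.card, ← hblk.card, h3]
            rw [h3, h4]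
          · exact div_nonneg (Finset.sum_nonneg fun a _ => (hR a).1 b) (hTpos b0).le
      · have h1 : (fun b => if (x, b) ∈ G₂ then (∑ a ∈ E b, R a b) / ((T b).card : ℝ) else 0)
            = fun _ => 0 := by
          funext b
          rw [if_neg fun h => hex ⟨b, h⟩]
        have h2 : Cl (fun b => if (x, b) ∈ G₂ then (∑ a ∈ E b, R a b) / ((T b).card : ℝ)
            else 0) := by
          rw [h1]
          exact Cl_zero
        exact h2
    · refine hCL4 w (T b) (E b) (fun a => C a b) (fun a x => z a x b - (y' a b x : ℝ)) (hC b)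
        (hblk.card b) (hblk.pos b) (fun a _ x _ => ?_) fun a _ => ?_
      · have := hy2 a b x
        rw [abs_sub_comm] at this
        exact this.le
      · have hsupp : ∀ x, x ∉ T b → z a x b - (y' a b x : ℝ) = 0 := by
          intro x hx
          have h1 : z a x b = 0 := by
            refine hzs a x b fun h => hx (hblk.mem x b h.2)
          rw [h1, hy3 a b x h1]
          simp
        have h1 : ∑ x ∈ T b, (z a x b - (y' a b x : ℝ)) = ∑ x, (z a x b - (y' a b x : ℝ)) :=
          Finset.sum_subset (Finset.subset_univ _) fun x _ hx => hsupp x hx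
        rw [h1, Finset.sum_sub_distrib]
        have h2 : ∑ x, z a x b = μ a b := by
          simp only [hz]
          rw [← Finset.mul_sum, hP.col b, mul_one]
        have h3 : ∑ x, (y' a b x : ℝ) = μ a b := by exact_mod_cast hy1 a b
        rw [h2, h3, sub_self]
    · intro x b hxb
      beta_reduce
      rw [if_pos hxb, if_pos (hblk.mem x b hxb)]
      have h1 := le_max_left ((∑ a ∈ E b, C a b) / ((T b).card : ℝ) +
        ∑ a ∈ E b, (z a x b - (y' a b x : ℝ))) 0
      have h2 : ∑ a ∈ E b, (y' a b x : ℝ) ≤ ((∑ a, y' a b x : ℕ) : ℝ) := by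
        push_cast
        exact Finset.sum_le_sum_of_subset_of_nonneg (Finset.subset_univ _)
          fun a _ _ => Nat.cast_nonneg _
      have h3 : ∑ a ∈ E b, (z a x b - (y' a b x : ℝ)) =
          P x b * (∑ a ∈ E b, (μ a b : ℝ)) - ∑ a ∈ E b, (y' a b x : ℝ) := by
        rw [Finset.sum_sub_distrib, Finset.mul_sum]
        congr 1
        exact Finset.sum_congr rfl fun a _ => by simp only [hz]; ring
      have h4 : (∑ a ∈ E b, (R a b + C a b)) / ((T b).card : ℝ) =
          (∑ a ∈ E b, R a b) / (T b).card + (∑ a ∈ E b, C a b) / (T b).card := by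
        rw [Finset.sum_add_distrib, add_div]
      rw [h4]
      rw [h3] at h1 ⊢
      linarith

end Pool.Agent.Helper26.D4
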