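import Pool.Agent.Helper63.D4.Sheet
import Pool.Agent.Helper6.PL.C
import Pool.Agent.Helper26.D4.MB

/-!
MP_fcb106_co, version 4, rows B4 and C4: the cases where `G₁` is as large as `G`.
-/

set_option autoImplicit false

open Finset

namespace Pool.Agent.Helper26.D4

open Pool.Agent.Helper33.DP Pool.Agent.Helper63.D4 Pool.Agent.Helper6.PL

theorem card_pos_core {w : ℕ} (hw : 1 ≤ w) {G : Gr w} (h : IsCore G) : 1 ≤ G.card := by
  obtain ⟨σ, hσ⟩ := h.ex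
  exact Finset.card_pos.2 ⟨_, hσ ⟨0, hw⟩⟩

theorem Bdd_le {w : ℕ} {G : Gr w} {m : Fin w → Fin w → ℝ} {β β' : ℝ} (h : Bdd G m β)
    (hβ : β ≤ β') : Bdd G m β' :=
  ⟨h.pos, fun σ hσ => (h.le σ hσ).trans hβ⟩

/-- the numbers of a block -/
theorem blk_num (hGB4 : ST_GB4) {w : ℕ} {G G₁ G₂ : Gr w} {μ : Fin w → Fin w → ℕ}
    {R C : Fin w → Fin w → ℝ} {T E : Fin w → Finset (Fin w)} (hw : 1 ≤ w) (hG : IsCore G)
    (hgood : Good4 G μ) (hblk : Blk G G₁ G₂ T E) (hR : ∀ a, Cl (R a))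
    (hC : ∀ b, Cl (fun a => C a b)) (b : Fin w) :
    0 < ∑ a ∈ E b, (μ a b : ℝ) ∧ 0 ≤ (∑ a ∈ E b, (R a b + C a b)) / ((T b).card : ℝ) ∧
    ∑ a ∈ E b, ((μ a b : ℝ) + R a b + C a b) = ∑ a ∈ E b, (μ a b : ℝ) +
      (T b).card * ((∑ a ∈ E b, (R a b + C a b)) / ((T b).card : ℝ)) := by
  have hTpos : (0 : ℝ) < (T b).card := by exact_mod_cast hblk.pos b
  have hEpos : 0 < (E b).card := by rw [hblk.card b]; exact hblk.pos b
  refine ⟨?_, ?_, ?_⟩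
  · refine Finset.sum_pos (fun a ha => ?_) (Finset.card_pos.1 hEpos)
    have h1 := hGB4 w G μ hw hG hgood a b (hblk.left a b ha)
    have h2 : (1 : ℝ) ≤ μ a b := by exact_mod_cast h1
    linarith
  · exact div_nonneg (Finset.sum_nonneg fun a _ => add_nonneg ((hR a).1 b) ((hC b).1 a)) hTpos.le
  · rw [mul_div_cancel₀ _ hTpos.ne', ← Finset.sum_add_distrib]
    exact Finset.sum_congr rfl fun a _ => by ring

/-- the end of both cases -/
theorem fin_step (hMB : ST_MB) {w : ℕ} {G G₁ G₂ : Gr w} {μ : Fin w → Fin w → ℕ}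
    {R C P : Fin w → Fin w → ℝ} {T E : Fin w → Finset (Fin w)} {β' : ℝ} (hG₁ : IsCore G₁)
    (hG₂ : IsCore G₂) (hcomp : comp G₁ G₂ = G)
    (hst : ∀ a x b, (a, b) ∈ G → (x, b) ∈ G₂ → (a, x) ∈ G₁) (hblk : Blk G G₁ G₂ T E)
    (hμ0 : ∀ a b, (a, b) ∉ G → μ a b = 0) (hR : ∀ a, Cl (R a)) (hC : ∀ b, Cl (fun a => C a b))
    (hB : Bdd G (fun a b => (μ a b : ℝ) + R a b + C a b) (1 / g4 w G.card))
    (hc₁ : G₁.card = G.card) (hP : DS G₂ P)
    (hPB : Bdd G₂ (fun x b => P x b * (∑ a ∈ E b, (μ a b : ℝ)) +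
      (∑ a ∈ E b, (R a b + C a b)) / ((T b).card : ℝ)) β')
    (hβ' : β' ≤ 1 / g4 w G₂.card) : StepC4 G₁ G₂ μ := by
  obtain ⟨z, hz, ⟨R₁, C₁, hR₁, hC₁, hB₁⟩, R₂, C₂, hR₂, hC₂, hle⟩ :=
    hMB w G G₁ G₂ μ R C P T E _ hG₁ hG₂ hcomp hst hblk hμ0 hR hC hB hP
  refine ⟨z, hz, ⟨fun a x h => ?_, R₁, C₁, hR₁, hC₁, by rw [hc₁]; exact hB₁⟩,
    fun x b h => ?_, R₂, C₂, hR₂, hC₂, Bdd_le (Bdd_mono hPB hle) hβ'⟩
  · refine Finset.sum_eq_zero fun b _ => ?_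
    by_contra hne
    exact h (hz.supp a x b hne).1
  · refine Finset.sum_eq_zero fun a _ => ?_
    by_contra hne
    exact h (hz.supp a x b hne).2

theorem B4 (hSTR : ST_STR) (hBL : ST_BL) (hPEX4 : ST_PEX4) (hMB : ST_MB) (hGB4 : ST_GB4) :
    ST_B4 := by
  classical
  intro w G G₁ G₂ μ hw hG hG₁ hG₂ hcomp hgood hc₁ hc₂
  obtain ⟨heq, hst⟩ := (hSTR w G G₁ G₂ hG₁ hG₂ hcomp).1.2 hc₁
  obtain ⟨T, E, hblk, hBLB⟩ := hBL w G G₁ G₂ hG₁ hG₂ heq hst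
  have hgood' := hgood
  obtain ⟨hμ0, R, C, hR, hC, hB⟩ := hgood'
  have hnum := blk_num hGB4 hw hG hgood hblk hR hC
  have h1 := hBLB _ _ hB
  set s : Fin w → ℝ := fun b => ∑ a ∈ E b, (μ a b : ℝ) with hs
  set e : Fin w → ℝ := fun b => (∑ a ∈ E b, (R a b + C a b)) / ((T b).card : ℝ) with he
  have h2 : ∑ b, ((T b).card : ℝ) / (s b + (T b).card * e b) ≤ 1 / g4 w G.card := by
    refine le_trans (le_of_eq ?_) h1
    refine Finset.sum_congr rfl fun b _ => ?_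
    rw [(hnum b).2.2]
  have hwR : (1 : ℝ) ≤ w := by exact_mod_cast hw
  have hm2 : (1 : ℝ) ≤ G₂.card := by exact_mod_cast card_pos_core hw hG₂
  have hm : (G₂.card : ℝ) + 1 ≤ G.card := by exact_mod_cast hc₂
  have hg1 : 0 < g4 w G.card - 1 := by unfold g4; nlinarith
  have hlt : 1 / g4 w G.card < 1 / (g4 w G.card - 1) :=
    one_div_lt_one_div_of_lt hg1 (by linarith)
  have hT : ∀ b, (univ.filter (fun x => (x, b) ∈ G₂)).card ≤ (T b).card := by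
    intro b
    refine Finset.card_le_card fun x hx => ?_
    exact hblk.mem x b (Finset.mem_filter.1 hx).2
  obtain ⟨P, hP, hPB⟩ := hPEX4 w G₂ s e (fun b => (T b).card) _ _ hw hG₂
    (fun b => (hnum b).1) (fun b => (hnum b).2.1) (by convert hT) h2 hlt
  refine fin_step hMB hG₁ hG₂ heq hst hblk hμ0 hR hC hB hc₁ hP hPB ?_
  refine one_div_le_one_div_of_le ?_ ?_
  · unfold g4; nlinarith
  · unfold g4; linarith

theorem C4 (hSTR : ST_STR) (hBL : ST_BL) (hMB : ST_MB) (hGB4 : ST_GB4) : ST_C4 := by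
  classical
  intro w G G₁ G₂ μ hw hG hG₁ hG₂ hcomp hgood hc₁ hc₂
  obtain ⟨⟨-, s1⟩, ⟨-, s2⟩⟩ := hSTR w G G₁ G₂ hG₁ hG₂ hcomp
  obtain ⟨heq, hst⟩ := s1 hc₁
  obtain ⟨-, hst2⟩ := s2 hc₂
  have hCC : CC G G₁ G₂ := ⟨hG₁, hG₂, hcomp, hst, hst2, hc₁, hc₂⟩
  obtain ⟨T, E, hblk, hBLB⟩ := hBL w G G₁ G₂ hG₁ hG₂ heq hst
  have hgood' := hgood
  obtain ⟨hμ0, R, C, hR, hC, hB⟩ := hgood'
  have hnum := blk_num hGB4 hw hG hgood hblk hR hC
  have h1 := hBLB _ _ hB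
  set s : Fin w → ℝ := fun b => ∑ a ∈ E b, (μ a b : ℝ) with hs
  set e : Fin w → ℝ := fun b => (∑ a ∈ E b, (R a b + C a b)) / ((T b).card : ℝ) with he
  have h2 : ∑ b, ((T b).card : ℝ) / (s b + (T b).card * e b) ≤ 1 / g4 w G.card := by
    refine le_trans (le_of_eq ?_) h1
    refine Finset.sum_congr rfl fun b _ => ?_
    rw [(hnum b).2.2]
  have hTn : ∀ b, nC G₂ b = T b := by
    intro b
    ext x
    rw [mem_nC]
    refine ⟨fun h => hblk.mem x b h, fun h => ?_⟩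
    have hEpos : 0 < (E b).card := by rw [hblk.card b]; exact hblk.pos b
    obtain ⟨a, ha⟩ := Finset.card_pos.1 hEpos
    exact hst2 a x b (hblk.left a b ha) (hblk.right a x b (hblk.left a b ha) h)
  have hTpos : ∀ b, (0 : ℝ) < (T b).card := fun b => by exact_mod_cast hblk.pos b
  have hPv : ∀ x b, (x, b) ∈ G₂ → PP G₂ x b = ((T b).card : ℝ)⁻¹ := by
    intro x b h
    unfold PP
    rw [if_pos h, hTn b]
  refine fin_step hMB hG₁ hG₂ heq hst hblk hμ0 hR hC hB hc₁ hCC.dsP (β' := 1 / g4 w G.card)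
    ⟨fun x b h => ?_, fun σ hσ => ?_⟩ (by rw [hc₂])
  · have h3 := (hnum b).1
    have h4 := (hnum b).2.1
    rw [hPv x b h]
    have h5 : 0 < ((T b).card : ℝ)⁻¹ := inv_pos.2 (hTpos b)
    have := mul_pos h5 h3
    linarith
  · refine le_trans (le_of_eq ?_) h2
    rw [← Equiv.sum_comp σ (fun b => ((T b).card : ℝ) / (s b + (T b).card * e b))]
    refine Finset.sum_congr rfl fun x _ => ?_
    rw [hPv x (σ x) (hσ x)]
    have h3 : ((T (σ x)).card : ℝ)⁻¹ * (∑ a ∈ E (σ x), (μ a (σ x) : ℝ)) +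
        (∑ a ∈ E (σ x), (R a (σ x) + C a (σ x))) / ((T (σ x)).card : ℝ) =
        (s (σ x) + (T (σ x)).card * e (σ x)) / (T (σ x)).card := by
      have h4 := (hTpos (σ x)).ne'
      simp only [hs, he]
      field_simp
    rw [h3, inv_div]

end Pool.Agent.Helper26.D4
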